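import Pool.Agent.Y879.PR.Full
import Pool.Agent.Y879.GL.Linear

set_option autoImplicit false

/-!
# Primes `q` for which `a + q d` is almost prime: their number, and the Poisson law after them

Let `P` be the set of the primes `q > N ^ (1 / r)` in `(u, u + Y]` for which `a + q d` has no prime
factor up to `N ^ (1 / r)`. Uniformly for all coprime `a`, `d` with `2 ∣ a d` up to any fixed power of
`N` (for `d = 1` it is assumed that `|a| > N ^ δ'`), for all `X ≥ N ^ θ` and all `(u, u + Y] ⊆ (0, X]`
with `Y ≥ δ X`: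

(1) `|P| log X` is `Y ∏ (1 - 1 / (p - 1))`, the product over the primes `2 < p ≤ N ^ (1 / r)` which do
not divide `a d`, up to the factor `1 + O (ε)`;

(2) for the elements `q` of `P` the number of the `m` in the window `(q, q + T]` such that neither `m`
nor `a + m d` has a prime factor up to `N ^ (1 / r)` has the Poisson distribution with the mean value
`T V`, up to an error `ε`.

The theorem for general systems of polynomials is `Pool.Agent.Y879.PR.prime_full` of the starting
library; none of the starting hand-ins states it.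
-/

namespace Pool.Agent.Results.MP_8bf9c2_nt.LawAfterPrimes

open Finset Filter

/-- No prime up to `N ^ (1 / r)` divides `m` or `a + m d`. -/
def Good (a : ℤ) (d r N m : ℕ) : Prop :=
  ∀ p : ℕ, p.Prime → (p : ℝ) ≤ (N : ℝ) ^ (1 / (r : ℝ)) → ¬ p ∣ m ∧ ¬ (p : ℤ) ∣ a + m * d

open Classical in
/-- The good primes `q` in `(u, u + Y]`: neither `q` nor `a + q d` is divisible by a prime up to
`N ^ (1 / r)`. -/
noncomputable def P (a : ℤ) (d r N u Y : ℕ) : Finset ℕ :=
  (Finset.Ioc u (u + Y)).filter (fun q => q.Prime ∧ Good a d r N q)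

open Classical in
/-- The number of the good `m` in `(n, n + T]`. -/
noncomputable def W (a : ℤ) (d r N T n : ℕ) : ℕ :=
  ((Finset.Ioc n (n + T)).filter (fun m => Good a d r N m)).card

open Classical in
/-- The density of the good integers: the product over the primes `p ≤ N ^ (1 / r)` of `1 - 1 / p` if
`p` divides `a d` and of `1 - 2 / p` otherwise. -/
noncomputable def V (a : ℤ) (d r N : ℕ) : ℝ :=
  ∏ p ∈ (Finset.range (⌊(N : ℝ) ^ (1 / (r : ℝ))⌋₊ + 1)).filter Nat.Prime,
    (1 - (if (p : ℤ) ∣ a * d then 1 else 2) / (p : ℝ))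

open Classical in
/-- The density of the good primes among the primes: the product of `1 - 1 / (p - 1)` over the
primes `p ≤ N ^ (1 / r)` which do not divide `a d`. -/
noncomputable def S (a : ℤ) (d r N : ℕ) : ℝ :=
  ∏ p ∈ (Finset.range (⌊(N : ℝ) ^ (1 / (r : ℝ))⌋₊ + 1)).filter
    (fun p : ℕ => p.Prime ∧ ¬ (p : ℤ) ∣ a * d), (1 - 1 / ((p : ℝ) - 1))

open Pool.Agent.TH464.PO Pool.Agent.TH464.PW Pool.Agent.W123.RU.Poly Pool.Agent.W123.RP
open Pool.Agent.H373R2.T7 Pool.Agent.Y879.GL Pool.Agent.Y879.PR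

/-- the system `x`, `d x + a` -/
noncomputable def sy (a : ℤ) (d : ℕ) : Fin 2 → Polynomial ℤ :=
  fun i => lf ((![1, (d : ℤ)] : Fin 2 → ℤ) i) ((![0, a] : Fin 2 → ℤ) i)

lemma sy_Q (a : ℤ) (d p m : ℕ) : Q (sy a d) p m ↔ (p ∣ m ∨ (p : ℤ) ∣ a + m * d) := by
  unfold Q sy
  rw [Fin.exists_fin_two]
  simp only [lf_eval, Matrix.cons_val_zero, Matrix.cons_val_one, Matrix.cons_val_fin_one]
  apply or_congr
  · rw [one_mul, add_zero, Int.natCast_dvd_natCast]
  · rw [show (d : ℤ) * (m : ℤ) + a = a + m * d by ring]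

lemma good_iff (a : ℤ) (d r N m : ℕ) :
    Sf (Q (sy a d)) ⌊(N : ℝ) ^ (1 / (r : ℝ))⌋₊ m ↔ Good a d r N m := by
  have h0 : (0 : ℝ) ≤ (N : ℝ) ^ (1 / (r : ℝ)) := by positivity
  constructor
  · intro h p hp hpX
    have h1 := h p (mem_pz.2 ⟨Nat.le_floor hpX, hp⟩)
    rw [sy_Q, not_or] at h1
    exact h1
  · intro h p hp
    obtain ⟨h1, h2⟩ := mem_pz.1 hp
    rw [sy_Q, not_or]
    exact h p h2 ((Nat.le_floor_iff h0).1 h1)

/-- the number of the classes -/
lemma sy_nu (a : ℤ) (d p : ℕ) (hp : p.Prime) (had : IsCoprime a (d : ℤ)) :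
    (nuB (Q (sy a d)) p : ℝ) = if (p : ℤ) ∣ a * d then 1 else 2 := by
  classical
  have hpi : Prime (p : ℤ) := Nat.prime_iff_prime_int.1 hp
  have h1 : nuB (Q (sy a d)) p =
      ((Finset.range p).filter (fun m : ℕ => p ∣ m ∨ (p : ℤ) ∣ a + m * d)).card := by
    unfold nuB
    congr 1
    apply Finset.filter_congr
    intro m _
    exact sy_Q a d p m
  rw [h1]
  by_cases hd : (p : ℤ) ∣ a * d
  · rw [if_pos hd]
    have h2 : (Finset.range p).filter (fun m : ℕ => p ∣ m ∨ (p : ℤ) ∣ a + m * d) = {0} := by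
      ext m
      simp only [mem_filter, Finset.mem_range, mem_singleton]
      constructor
      · rintro ⟨hm, h3⟩
        have h4 : p ∣ m := by
          rcases h3 with h3 | h3
          · exact h3
          · rcases hpi.dvd_or_dvd hd with h5 | h5
            · have h6 : (p : ℤ) ∣ (m : ℤ) * d := by
                have := dvd_sub h3 h5
                simpa using this
              rcases hpi.dvd_or_dvd h6 with h7 | h7
              · exact Int.natCast_dvd_natCast.1 h7
              · exact absurd (had.isUnit_of_dvd' h5 h7) hpi.not_isUnit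
            · have h6 : (p : ℤ) ∣ a := by
                have := dvd_sub h3 (Dvd.dvd.mul_left h5 (m : ℤ))
                simpa using this
              exact absurd (had.isUnit_of_dvd' h6 h5) hpi.not_isUnit
        exact Nat.eq_zero_of_dvd_of_lt h4 hm
      · rintro rfl
        exact ⟨hp.pos, Or.inl (dvd_zero _)⟩
    rw [h2, card_singleton]
    norm_num
  · rw [if_neg hd]
    have hpd : ¬ (p : ℤ) ∣ (d : ℤ) := fun h => hd (Dvd.dvd.mul_left h a)
    have hpa : ¬ (p : ℤ) ∣ a := fun h => hd (Dvd.dvd.mul_right h _)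
    have hcop : IsCoprime (d : ℤ) (p : ℤ) := (hpi.coprime_iff_not_dvd.2 hpd).symm
    obtain ⟨s, t, hst⟩ := hcop
    -- the class of the root of `a + m d`
    set c : ℕ := ((-(s * a)) % (p : ℤ)).toNat with hc
    have hp0 : (p : ℤ) ≠ 0 := by exact_mod_cast hp.ne_zero
    have hppos : (0 : ℤ) < p := by exact_mod_cast hp.pos
    have hcz : (c : ℤ) = (-(s * a)) % (p : ℤ) := by
      rw [hc]
      exact Int.toNat_of_nonneg (Int.emod_nonneg _ hp0)
    have hcp : c < p := by
      have := Int.emod_lt_of_pos (-(s * a)) hppos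
      rw [← hcz] at this
      exact_mod_cast this
    have hcd : (p : ℤ) ∣ (c : ℤ) + s * a := by
      rw [hcz]
      have := Int.emod_add_mul_ediv (-(s * a)) (p : ℤ)
      exact ⟨-((-(s * a)) / (p : ℤ)), by linarith⟩
    have hroot : (p : ℤ) ∣ a + c * d := by
      obtain ⟨w, hw⟩ := hcd
      refine ⟨w * d + a * t, ?_⟩
      have : (c : ℤ) = p * w - s * a := by linarith
      rw [this]
      linear_combination (-a) * hst
    have hc0 : c ≠ 0 := by
      intro h
      rw [h] at hroot
      apply hpa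
      simpa using hroot
    have h2 : (Finset.range p).filter (fun m : ℕ => p ∣ m ∨ (p : ℤ) ∣ a + m * d) = {0, c} := by
      ext m
      simp only [mem_filter, Finset.mem_range, mem_insert, mem_singleton]
      constructor
      · rintro ⟨hm, h3 | h3⟩
        · exact Or.inl (Nat.eq_zero_of_dvd_of_lt h3 hm)
        · right
          have h4 : (p : ℤ) ∣ ((m : ℤ) - c) * d := by
            have := dvd_sub h3 hroot
            have e : a + (m : ℤ) * d - (a + c * d) = (m - c) * d := by ring
            rwa [e] at this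
          rcases hpi.dvd_or_dvd h4 with h5 | h5
          · have h6 : (m : ℤ) % p = (c : ℤ) % p := ((Int.modEq_iff_dvd).2 h5).symm
            have h7 : m % p = c % p := by exact_mod_cast h6
            rwa [Nat.mod_eq_of_lt hm, Nat.mod_eq_of_lt hcp] at h7
          · exact absurd h5 hpd
      · rintro (rfl | rfl)
        · exact ⟨hp.pos, Or.inl (dvd_zero _)⟩
        · exact ⟨hcp, Or.inr hroot⟩
    rw [h2, card_pair hc0.symm]
    norm_num

lemma pz_eq (y : ℕ) : pz y = (Finset.range (y + 1)).filter Nat.Prime := by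
  unfold pz
  ext p
  simp only [mem_filter, mem_Icc, mem_range]
  constructor
  · rintro ⟨h1, h2⟩
    exact ⟨by omega, h2⟩
  · rintro ⟨h1, h2⟩
    exact ⟨⟨h2.one_lt.le, by omega⟩, h2⟩

lemma V_eq (a : ℤ) (d r N : ℕ) (had : IsCoprime a (d : ℤ)) :
    Vq (Q (sy a d)) ⌊(N : ℝ) ^ (1 / (r : ℝ))⌋₊ = V a d r N := by
  unfold Vq V
  rw [pz_eq]
  apply Finset.prod_congr rfl
  intro p hp
  rw [sy_nu a d p (mem_filter.1 hp).2 had]

lemma S_eq (a : ℤ) (d r N : ℕ) :
    V a d r N / Vz ⌊(N : ℝ) ^ (1 / (r : ℝ))⌋₊ = S a d r N := by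
  classical
  unfold V S Vz
  rw [pz_eq, ← Finset.prod_div_distrib, ← Finset.filter_filter,
    Finset.prod_filter (fun p : ℕ => ¬ (p : ℤ) ∣ a * d)]
  apply Finset.prod_congr rfl
  intro p hp
  have hpp : p.Prime := (mem_filter.1 hp).2
  have hp1 : (1 : ℝ) < p := by exact_mod_cast hpp.one_lt
  have hp0 : (p : ℝ) ≠ 0 := by positivity
  have hp2 : (p : ℝ) - 1 ≠ 0 := by linarith
  by_cases h : (p : ℤ) ∣ a * d
  · rw [if_pos h, if_neg (not_not.2 h)]
    apply div_self
    intro h3
    apply hp2
    field_simp at h3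
    linarith
  · rw [if_neg h, if_pos h]
    field_simp
    ring

open Classical in
/-- **The number of the primes `q` with `a + q d` almost prime, and the Poisson law after them.** For
all `E, δ', θ > 0`, `0 < δ ≤ 1`, `x0` and `0 < ε ≤ 1` there is `r0` such that for all `r ≥ r0` and all
large `N` the following holds for all integers `a ≠ 0` and `d ≥ 1` with `gcd (a, d) = 1`, `2 ∣ a d`,
`|a|, d ≤ N ^ E`, and `|a| > N ^ δ'` if `d = 1`, for all `X ≥ N ^ θ` and all `u`, `Y` with `Y ≥ δ X`
and `u + Y ≤ X`. (1) The number of the good primes in `(u, u + Y]` is `Y S / log X` up to at most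
`ε Y S / log X`. (2) For all `T` with `T V ≤ x0` and all finite sets `B` of integers the number of the
good primes `q` in `(u, u + Y]` for which the number of the good `m` in `(q, q + T]` lies in `B` is
`∑_{j ∈ B} e ^ (-T V) (T V) ^ j / j!` times the number of all these good primes, up to at most `ε`
times this number. -/
theorem result (E δ' θ δ : ℝ) (hE : 0 < E) (hδ' : 0 < δ') (hθ : 0 < θ) (hδ : 0 < δ) (hδ1 : δ ≤ 1)
    (x0 ε : ℝ) (hε : 0 < ε) (hε1 : ε ≤ 1) :
    ∃ r0 : ℕ, ∀ r : ℕ, r0 ≤ r → ∀ᶠ N : ℕ in atTop, ∀ (a : ℤ) (d : ℕ), a ≠ 0 → 1 ≤ d →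
      IsCoprime a (d : ℤ) → (2 : ℤ) ∣ a * d → |(a : ℝ)| ≤ (N : ℝ) ^ E → (d : ℝ) ≤ (N : ℝ) ^ E →
      (d = 1 → (N : ℝ) ^ δ' < |(a : ℝ)|) →
      ∀ X : ℕ, (N : ℝ) ^ θ ≤ X → ∀ u Y : ℕ, δ * X ≤ Y → u + Y ≤ X →
      |((P a d r N u Y).card : ℝ) * Real.log X - Y * S a d r N| ≤ ε * (Y * S a d r N) ∧
      ∀ T : ℕ, T * V a d r N ≤ x0 → ∀ B : Finset ℕ,
      |(((P a d r N u Y).filter (fun q => W a d r N T q ∈ B)).card : ℝ) -
        (P a d r N u Y).card *
          ∑ j ∈ B, Real.exp (-(T * V a d r N)) * (T * V a d r N) ^ j / j.factorial| ≤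
        ε * (P a d r N u Y).card := by
  obtain ⟨r0, hr0, h0⟩ := prime_full 1 2 1 squarefree_one (E + 1) δ' θ δ (by positivity) hδ' hθ hδ hδ1
    x0 ε hε hε1
  refine ⟨r0, ?_⟩
  intro r hr
  obtain ⟨M, hM, hV2⟩ := V2_up (2 * E) (by positivity) r (hr0.trans hr)
  filter_upwards [h0 r hr M, hV2, eventually_ge_atTop 1] with N hN hVN hN1
  intro a d ha hd had h2 haN hdN hd1 X hX u Y hY huY
  have hN1' : (1 : ℝ) ≤ N := by exact_mod_cast hN1
  have hN0 : (0 : ℝ) < N := by linarith
  have hEE : (N : ℝ) ^ E ≤ (N : ℝ) ^ (E + 1) :=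
    Real.rpow_le_rpow_of_exponent_le hN1' (by linarith)
  have hd0 : (d : ℤ) ≠ 0 := by exact_mod_cast (by omega : d ≠ 0)
  have hdpos : (0 : ℤ) < d := by exact_mod_cast hd
  -- the system
  have hadm : ∀ p : ℕ, p.Prime → ∃ m : ℕ, ¬ p ∣ m ∧ ¬ (p : ℤ) ∣ a + m * d := by
    intro p hp
    have hpi : Prime (p : ℤ) := Nat.prime_iff_prime_int.1 hp
    by_cases hp2 : p = 2
    · subst hp2
      refine ⟨1, by norm_num, ?_⟩
      intro h
      have h3 : (2 : ℤ) ∣ a + d := by simpa using h
      rcases Int.prime_two.dvd_or_dvd h2 with h4 | h4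
      · have h5 : (2 : ℤ) ∣ d := by
          have := dvd_sub h3 h4
          simpa using this
        exact Int.prime_two.not_isUnit (had.isUnit_of_dvd' h4 h5)
      · have h5 : (2 : ℤ) ∣ a := by
          have := dvd_sub h3 h4
          simpa using this
        exact Int.prime_two.not_isUnit (had.isUnit_of_dvd' h5 h4)
    · by_contra hcon
      push Not at hcon
      have hp3 : 2 < p := lt_of_le_of_ne hp.two_le (Ne.symm hp2)
      have h3 := hcon 1 (fun h => by have := Nat.le_of_dvd one_pos h; omega)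
      have h4 := hcon 2 (fun h => by have := Nat.le_of_dvd two_pos h; omega)
      have h5 : (p : ℤ) ∣ d := by
        have := dvd_sub h4 h3
        have e : a + ((2 : ℕ) : ℤ) * d - (a + ((1 : ℕ) : ℤ) * d) = d := by push_cast; ring
        rwa [e] at this
      have h6 : (p : ℤ) ∣ a := by
        have := dvd_sub h3 h5
        have e : a + ((1 : ℕ) : ℤ) * d - d = a := by push_cast; ring
        rwa [e] at this
      exact hpi.not_isUnit (had.isUnit_of_dvd' h6 h5)
  have hus : US 2 1 ((N : ℝ) ^ (E + 1)) ((N : ℝ) ^ δ') (sy a d) := by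
    apply us_lf
    · intro i
      fin_cases i
      · simp
      · simpa using hd0
    · intro i
      fin_cases i
      · exact isCoprime_one_left
      · exact had.symm
    · intro i
      fin_cases i
      · simp only [Fin.zero_eta, Matrix.cons_val_zero, Int.cast_one, abs_one]
        exact Real.one_le_rpow hN1' (by positivity)
      · simp only [Fin.mk_one, Matrix.cons_val_one, Matrix.cons_val_fin_one, Int.cast_natCast, Nat.abs_cast]
        exact hdN.trans hEE
    · intro i
      fin_cases i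
      · simp only [Fin.zero_eta, Matrix.cons_val_zero, Int.cast_zero, abs_zero]
        positivity
      · simp only [Fin.mk_one, Matrix.cons_val_one, Matrix.cons_val_fin_one]
        exact haN.trans hEE
    · intro p hp
      obtain ⟨m, hm1, hm2⟩ := hadm p hp
      refine ⟨m, fun i => ?_⟩
      fin_cases i
      · simp only [Fin.zero_eta, Matrix.cons_val_zero, one_mul, add_zero]
        rw [Int.natCast_dvd_natCast]
        exact hm1
      · simp only [Fin.mk_one, Matrix.cons_val_one, Matrix.cons_val_fin_one]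
        rw [show (d : ℤ) * (m : ℤ) + a = a + m * d by ring]
        exact hm2
    · intro i j t ht htU
      have ht0 : (0 : ℤ) < t := by exact_mod_cast ht
      have key : (d : ℤ) = 1 → a ≠ t ∧ a ≠ -t := by
        intro h1
        have h3 := hd1 (by exact_mod_cast h1)
        constructor
        · rintro rfl
          rw [Int.cast_natCast, Nat.abs_cast] at h3
          linarith
        · rintro rfl
          rw [Int.cast_neg, abs_neg, Int.cast_natCast, Nat.abs_cast] at h3
          linarith
      fin_cases i <;> fin_cases j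
      · simp only [Fin.zero_eta, Matrix.cons_val_zero]
        refine ⟨fun h => ?_, fun h => ?_⟩
        · omega
        · omega
      · simp only [Fin.zero_eta, Fin.mk_one, Matrix.cons_val_zero, Matrix.cons_val_one, Matrix.cons_val_fin_one]
        refine ⟨fun h => ?_, fun h => ?_⟩
        · obtain ⟨h3, h4⟩ := h
          rw [← h3] at h4
          exact (key h3.symm).2 (by linarith)
        · obtain ⟨h3, h4⟩ := h
          omega
      · simp only [Fin.zero_eta, Fin.mk_one, Matrix.cons_val_zero, Matrix.cons_val_one, Matrix.cons_val_fin_one]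
        refine ⟨fun h => ?_, fun h => ?_⟩
        · obtain ⟨h3, h4⟩ := h
          exact (key h3).1 (by linarith)
        · obtain ⟨h3, h4⟩ := h
          omega
      · simp only [Fin.mk_one, Matrix.cons_val_one, Matrix.cons_val_fin_one]
        refine ⟨fun h => ?_, fun h => ?_⟩
        · obtain ⟨h3, h4⟩ := h
          have : (0 : ℤ) < d * t := mul_pos hdpos ht0
          linarith
        · obtain ⟨h3, h4⟩ := h
          omega
  -- the density
  have hVle : Vq (Q (sy a d)) ⌊(N : ℝ) ^ (1 / (r : ℝ))⌋₊ ≤ M / Real.log N := by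
    apply hVN (Q (sy a d)) (a.natAbs * d)
    · intro p hp
      obtain ⟨m, hm1, hm2⟩ := hadm p hp
      have h3 := sy_nu a d p hp had
      by_cases h4 : (p : ℤ) ∣ a * d
      · rw [if_pos h4] at h3
        have h5 : nuB (Q (sy a d)) p = 1 := by exact_mod_cast h3
        rw [h5]
        exact hp.one_lt
      · rw [if_neg h4] at h3
        have h5 : nuB (Q (sy a d)) p = 2 := by exact_mod_cast h3
        rw [h5]
        rcases hp.two_le.lt_or_eq with h6 | h6
        · exact h6
        · exfalso
          apply h4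
          rw [← h6]
          exact_mod_cast h2
    · exact Nat.mul_pos (Int.natAbs_pos.2 ha) hd
    · push_cast
      have e : ((a.natAbs : ℕ) : ℝ) = |(a : ℝ)| := by
        rw [Nat.cast_natAbs]
        push_cast
        rfl
      rw [e]
      calc |(a : ℝ)| * d ≤ (N : ℝ) ^ E * (N : ℝ) ^ E := by gcongr
        _ = (N : ℝ) ^ (2 * E) := by
          rw [← Real.rpow_add hN0]
          congr 1
          ring
    · intro p hp hpD
      have h3 := sy_nu a d p hp had
      rw [if_neg] at h3
      · have h5 : nuB (Q (sy a d)) p = 2 := by exact_mod_cast h3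
        rw [h5]
      · intro h4
        apply hpD
        have h5 := Int.natAbs_dvd_natAbs.2 h4
        rwa [Int.natAbs_natCast, Int.natAbs_mul, Int.natAbs_natCast] at h5
  obtain ⟨g1, g2⟩ := hN (sy a d) 0 hus (by norm_num) (fun p n hp hp1 => by
      have := hp.one_lt
      have := Nat.le_of_dvd one_pos hp1
      omega) ⟨0, fun n => by
        unfold sy
        rw [lf_eval]
        simp⟩ hVle (by
        rw [Nat.cast_zero]
        positivity) X hX u Y hY huY
  have hOm : Om 1 0 (Q (sy a d)) ⌊(N : ℝ) ^ (1 / (r : ℝ))⌋₊ u Y = P a d r N u Y := by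
    unfold Om P
    simp only [good_iff, one_mul, add_zero]
  have hW : ∀ n, Wc (Sf (Q (sy a d)) ⌊(N : ℝ) ^ (1 / (r : ℝ))⌋₊) n = fun T => W a d r N T n := by
    intro n
    funext T
    unfold Wc W
    simp only [good_iff]
  rw [hOm, V_eq a d r N had, S_eq a d r N] at g1
  refine ⟨g1, fun T hT B => ?_⟩
  have g3 := g2 T (by rw [V_eq a d r N had]; exact hT) B
  rw [hOm, V_eq a d r N had] at g3
  simp only [hW] at g3
  exact g3

end Pool.Agent.Results.MP_8bf9c2_nt.LawAfterPrimes
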