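import Pool.Agent.V11290.FD.Sys

/-!
# Primes `q` such that `a + q d` is prime, for all integers `a` near `t α + s` and all small `d`, for almost every `α` of a
set of positive Fourier dimension

Let `μ` be ANY compactly supported probability measure on the line whose Fourier transform decays like some power, with an
arbitrarily small exponent `σ > 0`. (Such measures live on many sets of Lebesgue measure zero and of arbitrarily small
dimension: on the badly approximable numbers with bounded partial quotients (Kaufman), on the sets of `τ`-well approximable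
numbers (Kaufman), on limit sets of convex cocompact Fuchsian groups (Bourgain, Dyatlov), on random Salem sets, ...). For
almost every `α` ALL integers `a` near `t j α + s j` are such that for ALL `d ≤ log ^ D (t j)` with `gcd(a, d) = 1` and
`2 ∣ a d` the number of the primes `q` for which `a + q d` is prime is as predicted, in all windows.

Proof: the law of a random rounding of `t α` is approximated by a finite family of integers (with multiplicities); its
additive energy of order `p ≥ 1 / σ` is nearly minimal since the characteristic function of the rounding is small away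
from the integers (a Fourier series with the coefficients `sinc²`). The theorem of the library TH935.TF on thin families
(starting files) is applied to these families, the result is carried back to the measure, and then the lemma of Borel and
Cantelli is applied.
-/

set_option autoImplicit false

namespace Pool.Agent.Results.MP_8bf9c2_nt.FourierDecay

open Finset Filter Topology MeasureTheory

/-- The product over the primes `p ≤ z` of the factors of the singular series of the pair `(x, a + d x)`: `1 / (1 - 1 / p)` if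
`p` divides `a d`, and `(1 - 2 / p) / (1 - 1 / p) ^ 2` otherwise. -/
noncomputable def series (a d : ℤ) (z : ℕ) : ℝ :=
  ∏ p ∈ (Icc 1 z).filter Nat.Prime,
    if (p : ℤ) ∣ a * d then (1 - 1 / (p : ℝ)) / (1 - 1 / (p : ℝ)) ^ 2 else (1 - 2 / (p : ℝ)) / (1 - 1 / (p : ℝ)) ^ 2

/-- The number of the primes `q` with `y₁ < q ≤ y₂` such that `|a + q d|` is prime. -/
def count (a d : ℤ) (y₁ y₂ : ℕ) : ℕ :=
  ((Ioc y₁ y₂).filter (fun q : ℕ => q.Prime ∧ (a + (q : ℤ) * d).natAbs.Prime)).card

/-- For all `d` with `1 ≤ d ≤ log ^ D N`, `gcd(a, d) = 1` and `2 ∣ a d` the products `series a d z` converge to a positive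
number `c`, and for all `y₁ < y₂ ≤ B N` with `y₂ - y₁ ≥ N / log ^ A N` the number of the primes `q` with
`y₁ < q ≤ y₂` such that `|a + q d|` is prime agrees with `c (y₂ - y₁) / log ^ 2 N` up to a relative error of at most
`ε`. -/
def Holds (ε : ℝ) (A B D N : ℕ) (a : ℤ) : Prop :=
  ∀ d : ℤ, 1 ≤ d → (d : ℝ) ≤ Real.log N ^ D → IsCoprime a d → 2 ∣ a * d →
    ∃ c : ℝ, 0 < c ∧ Tendsto (series a d) atTop (𝓝 c) ∧
      ∀ y₁ y₂ : ℕ, y₁ < y₂ → y₂ ≤ B * N → (N : ℝ) / Real.log N ^ A ≤ (y₂ : ℝ) - y₁ →
        |(count a d y₁ y₂ : ℝ) - c * ((y₂ : ℝ) - y₁) / Real.log N ^ 2| ≤ ε * (c * ((y₂ : ℝ) - y₁) / Real.log N ^ 2)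

open Pool.Agent.TH935.TF

lemma ex_iff (a d : ℤ) (p : ℕ) (n : ℤ) :
    (∃ i, (p : ℤ) ∣ consA (fun _ : Fin 1 => d) i * n + consB (fun _ : Fin 1 => a) i) ↔ (p : ℤ) ∣ n ∨ (p : ℤ) ∣ d * n + a := by
  rw [Fin.exists_fin_succ, consA_zero, consB_zero, one_mul, add_zero]
  simp only [consA_succ, consB_succ]
  simp

lemma om_eq (a d : ℤ) (had : IsCoprime a d) (p : ℕ) (hp : p.Prime) :
    om (consA (fun _ : Fin 1 => d)) (consB (fun _ : Fin 1 => a)) p = if (p : ℤ) ∣ a * d then 1 else 2 := by
  have hp' := Nat.prime_iff_prime_int.1 hp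
  have h0 : ∀ r ∈ range p, ((p : ℤ) ∣ (r : ℤ) ↔ r = 0) := by
    intro r hr
    rw [mem_range] at hr
    rw [Int.natCast_dvd_natCast]
    constructor
    · intro h
      exact Nat.eq_zero_of_dvd_of_lt h hr
    · rintro rfl
      exact dvd_zero _
  have hset : (range p).filter (fun r : ℕ => ∃ i, (p : ℤ) ∣ consA (fun _ : Fin 1 => d) i * (r : ℤ) + consB (fun _ : Fin 1 => a) i) =
      (range p).filter (fun r : ℕ => r = 0 ∨ (p : ℤ) ∣ d * (r : ℤ) + a) := by
    apply filter_congr
    intro r hr
    rw [ex_iff, h0 r hr]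
  unfold om
  rw [hset]
  by_cases hd : (p : ℤ) ∣ d
  · have hna : ¬ (p : ℤ) ∣ a := fun ha => hp'.not_isUnit (had.isUnit_of_dvd' ha hd)
    rw [if_pos (dvd_mul_of_dvd_right hd a)]
    rw [card_eq_one]
    refine ⟨0, ?_⟩
    ext r
    rw [mem_filter, mem_singleton, mem_range]
    constructor
    · rintro ⟨_, h1 | h1⟩
      · exact h1
      · exact absurd ((dvd_add_right (dvd_mul_of_dvd_left hd _)).1 h1) hna
    · rintro rfl
      exact ⟨hp.pos, Or.inl rfl⟩
  · -- the class of `-a / d`
    obtain ⟨u, v, huv⟩ := (hp'.coprime_iff_not_dvd.2 hd : IsCoprime (p : ℤ) d)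
    have hpz : (0 : ℤ) < p := by exact_mod_cast hp.pos
    obtain ⟨r₀, hr₀⟩ : ∃ r₀ : ℕ, (r₀ : ℤ) = (-(v * a)) % p :=
      ⟨((-(v * a)) % p).toNat, Int.toNat_of_nonneg (Int.emod_nonneg _ hpz.ne')⟩
    have hr₀lt : r₀ < p := by
      have := Int.emod_lt_of_pos (-(v * a)) hpz
      rw [← hr₀] at this
      exact_mod_cast this
    have hr₀d : (p : ℤ) ∣ (r₀ : ℤ) + v * a := by
      have h1 : (p : ℤ) ∣ -(v * a) - (-(v * a)) % p := Int.dvd_self_sub_emod
      rw [hr₀]
      have h2 : (-(v * a)) % p + v * a = -(-(v * a) - (-(v * a)) % p) := by ring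
      rw [h2]
      exact (dvd_neg).2 h1
    have hiff : ∀ r ∈ range p, ((p : ℤ) ∣ d * (r : ℤ) + a ↔ r = r₀) := by
      intro r hr
      rw [mem_range] at hr
      have e1 : d * (r : ℤ) + a = d * ((r : ℤ) - r₀) + d * (r₀ + v * a) + u * a * p := by
        have : a = (u * p + v * d) * a := by rw [huv, one_mul]
        linear_combination this
      constructor
      · intro h
        have h1 : (p : ℤ) ∣ d * ((r : ℤ) - r₀) := by
          rw [e1] at h
          have h2 := (dvd_add_left (dvd_mul_left (p : ℤ) (u * a))).1 h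
          exact (dvd_add_left (dvd_mul_of_dvd_right hr₀d d)).1 h2
        have h2 : (p : ℤ) ∣ (r : ℤ) - r₀ := (hp'.dvd_mul.1 h1).resolve_left hd
        have h3 : (r : ℤ) - r₀ = 0 := by
          apply Int.eq_zero_of_abs_lt_dvd h2
          rw [abs_lt]
          omega
        omega
      · rintro rfl
        rw [e1]
        simp only [sub_self, mul_zero, zero_add]
        exact dvd_add (dvd_mul_of_dvd_right hr₀d d) (dvd_mul_left _ _)
    have hset2 : (range p).filter (fun r : ℕ => r = 0 ∨ (p : ℤ) ∣ d * (r : ℤ) + a) = {0, r₀} := by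
      ext r
      rw [mem_filter, mem_insert, mem_singleton]
      constructor
      · rintro ⟨h1, h2 | h2⟩
        · exact Or.inl h2
        · exact Or.inr ((hiff r h1).1 h2)
      · rintro (rfl | rfl)
        · exact ⟨mem_range.2 hp.pos, Or.inl rfl⟩
        · exact ⟨mem_range.2 hr₀lt, Or.inr ((hiff r (mem_range.2 hr₀lt)).2 rfl)⟩
    rw [hset2]
    by_cases ha : (p : ℤ) ∣ a
    · rw [if_pos (dvd_mul_of_dvd_left ha d)]
      have h1 : (p : ℤ) ∣ (r₀ : ℤ) := (dvd_add_left (dvd_mul_of_dvd_right ha v)).1 hr₀d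
      have h2 : r₀ = 0 := (h0 r₀ (mem_range.2 hr₀lt)).1 h1
      rw [h2]
      simp
    · have had' : ¬ (p : ℤ) ∣ a * d := fun h => (hp'.dvd_mul.1 h).elim ha hd
      rw [if_neg had']
      rw [card_pair]
      intro h
      rw [← h] at hr₀d
      rw [Nat.cast_zero, zero_add] at hr₀d
      rcases hp'.dvd_mul.1 hr₀d with h1 | h1
      · have h2 : (p : ℤ) ∣ 1 := by
          rw [← huv]
          exact dvd_add (dvd_mul_left _ _) (dvd_mul_of_dvd_left h1 d)
        exact hp'.not_isUnit (isUnit_of_dvd_one h2)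
      · exact ha h1

lemma series_eq (a d : ℤ) (had : IsCoprime a d) :
    series a d = fun z => Gz (om (consA (fun _ : Fin 1 => d)) (consB (fun _ : Fin 1 => a))) 2 z := by
  funext z
  unfold series Gz Fq Pool.Agent.H373R2.T7.pz
  apply prod_congr rfl
  intro p hp
  rw [om_eq a d had p (mem_filter.1 hp).2]
  split_ifs <;> norm_num

lemma adm_of (a d : ℤ) (had : IsCoprime a d) (h2 : 2 ∣ a * d) : Adm (consA (fun _ : Fin 1 => d)) (consB (fun _ : Fin 1 => a)) := by
  intro p hp
  have hom := om_eq a d had p hp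
  have hlt : om (consA (fun _ : Fin 1 => d)) (consB (fun _ : Fin 1 => a)) p < p := by
    rw [hom]
    split_ifs with h
    · exact hp.one_lt
    · rcases hp.two_le.lt_or_eq with h3 | h3
      · exact h3
      · exfalso
        apply h
        rw [← h3]
        exact_mod_cast h2
  by_contra hcon
  push Not at hcon
  have hall : (range p).filter (fun r : ℕ => ∃ i, (p : ℤ) ∣ consA (fun _ : Fin 1 => d) i * (r : ℤ) + consB (fun _ : Fin 1 => a) i) = range p := by
    apply filter_true_of_mem
    intro r _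
    exact hcon r
  unfold om at hlt
  rw [hall, card_range] at hlt
  exact lt_irrefl _ hlt

lemma dist_of (a d : ℤ) (ha : a ≠ 0) : Dist (consA (fun _ : Fin 1 => d)) (consB (fun _ : Fin 1 => a)) := by
  intro i j
  refine Fin.cases ?_ (fun i' => ?_) i <;> refine Fin.cases ?_ (fun j' => ?_) j
  · intro h0
    exact absurd rfl h0
  · intro _
    rw [consA_zero, consB_zero, consA_succ, consB_succ]
    constructor
    · rintro ⟨_, e2⟩
      exact ha e2.symm
    · rintro ⟨_, e2⟩
      exact ha (by omega)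
  · intro _
    rw [consA_zero, consB_zero, consA_succ, consB_succ]
    constructor
    · rintro ⟨_, e2⟩
      exact ha e2
    · rintro ⟨_, e2⟩
      exact ha (by omega)
  · intro hij
    exact absurd (by rw [Subsingleton.elim i' j']) hij

lemma count_eq (a d : ℤ) (y₁ y₂ : ℕ) : cn (consA (fun _ : Fin 1 => d)) (consB (fun _ : Fin 1 => a)) y₁ y₂ = count a d y₁ y₂ := by
  unfold cn count
  congr 1
  apply filter_congr
  intro n _
  rw [Fin.forall_fin_succ]
  simp only [consA_zero, consB_zero, consA_succ, consB_succ, one_mul, add_zero, Int.natAbs_natCast]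
  constructor
  · rintro ⟨h1, h2⟩
    exact ⟨h1, by rw [add_comm, mul_comm]; exact h2 0⟩
  · rintro ⟨h1, h2⟩
    exact ⟨h1, fun _ => by rw [add_comm, mul_comm]; exact h2⟩

lemma holds_of (ε : ℝ) (A B D N : ℕ) (a : ℤ) (ha : a ≠ 0) (h : HW consA consB ε A B D N (fun _ : Fin 1 => a)) : Holds ε A B D N a := by
  intro d hd1 hdL had h2
  have hd0 : (0 : ℝ) < d := by exact_mod_cast (by omega : 0 < d)
  obtain ⟨S, hS0, hSt, hS⟩ := h (fun _ => d) (fun _ => by omega)
    (fun _ => by rw [Nat.cast_natAbs, Int.cast_abs, abs_of_pos hd0]; exact hdL) (adm_of a d had h2) (dist_of a d ha)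
  refine ⟨S, hS0, by rw [series_eq a d had]; exact hSt, fun y₁ y₂ h12 hy2 hΔ => ?_⟩
  rw [← count_eq]
  exact hS y₁ y₂ h12.le hy2 hΔ

/-- Let `μ` be a probability measure on `[-B, B]` with `|μ^(ξ)| ≤ C |ξ| ^ (-σ)` for `|ξ| ≥ 1` and some `C` and
`σ > 0`. Let `t j ≥ 2` and `|s j| ≤ B t j` be real numbers, where `j` ranges over a set `J`, such that the sum of the
`1 / log ^ V (t j)` converges for some `V`. Then for `μ`-almost every `α`, for all `A`, `A'`, `B'`, `D` and `ε > 0` and for all
but finitely many `j`: ALL integers `a ≠ 0` with `|a - (t j α + s j)| ≤ log ^ A (t j)` are such that for ALL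
`1 ≤ d ≤ log ^ D N`, `N = ⌈t j⌉`, with `gcd(a, d) = 1` and `2 ∣ a d`, and for ALL windows `y₁ < q ≤ y₂` with
`y₂ ≤ B' N` and `y₂ - y₁ ≥ N / log ^ A' N`, the number of the primes `q` in the window such that `|a + q d|` is prime agrees
with `S (y₂ - y₁) / log ^ 2 N`, where `S > 0` is the limit of the products `series a d z`, up to a relative error of at most
`ε`. -/
theorem result (μ : Measure ℝ) [IsProbabilityMeasure μ] (B : ℝ) (hμ : ∀ᵐ α ∂μ, |α| ≤ B)
    (C σ : ℝ) (hσ : 0 < σ) (hdec : ∀ ξ : ℝ, 1 ≤ |ξ| → ‖charFun μ ξ‖ ≤ C * |ξ| ^ (-σ))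
    (J : Type) (t s : J → ℝ) (ht : ∀ j, 2 ≤ t j) (hs : ∀ j, |s j| ≤ B * t j)
    (hsum : ∃ V : ℕ, Summable fun j => 1 / Real.log (t j) ^ V) :
    ∀ᵐ α ∂μ, ∀ (A A' B' D : ℕ) (ε : ℝ), 0 < ε →
      {j | ¬ ∀ a : ℤ, a ≠ 0 → |(a : ℝ) - (t j * α + s j)| ≤ Real.log (t j) ^ A →
        Holds ε A' B' D ⌈t j⌉₊ a}.Finite := by
  have h := Pool.Agent.V11290.FD.sys_ae (sys_lam 1 le_rfl) le_rfl (fun _ : Fin 1 => μ) B (fun _ => hμ) C σ hσ (fun _ => hdec) J t
    (fun j _ => s j) ht (fun j _ => hs j) hsum
  have hmp := (measurePreserving_funUnique μ (Fin 1)).symm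
  have h' := hmp.quasiMeasurePreserving.ae h
  filter_upwards [h'] with α hα A A' B' D ε hε
  refine (hα A A' B' D ε hε).subset ?_
  intro j hj
  rw [Set.mem_ofPred_eq] at hj ⊢
  intro hall
  apply hj
  intro a ha0 ha
  exact holds_of ε A' B' D ⌈t j⌉₊ a ha0 (hall (fun _ => a) (fun _ => ha))

end Pool.Agent.Results.MP_8bf9c2_nt.FourierDecay
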