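import Pool.Agent.V11150.SlopeB

/-!
# A third of the products of consecutive terms, near every `A`

For all positive integers `d_1, ..., d_n` there is `C` such that for EVERY integer `A` at least
`(n + 1) (n - 2) / 6` of the `n (n + 1) / 2` intervals of indices `{i, ..., j}` have the following
property: there is an integer `a` with `|a - A| ≤ C` such that the pair `(a, D)`, `D = d_i ... d_j`,
satisfies the hypotheses and the conclusion of the question, with at least `x ^ (1 - η)` primes `q ≤ x`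
such that `a + q D` is prime, for arbitrarily large `x`, for every `η > 0`. Moreover some FIXED set of at
least `(n + 1) (n - 2) / 6` intervals of indices works for all `A` in arbitrarily long intervals.
For `n = 3`: one of `d_1, d_2, d_3, d_1 d_2, d_2 d_3, d_1 d_2 d_3` has a good `a` near every `A`.

Proof: two of any four classes of linear forms are hit by primes (`Pool.Agent.TH899.UG.fourC`, in the
form `Pool.Agent.TH899.UG.PairB4.slopes`, starting files), Turán's theorem for `K_4`, and Brown's lemma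
on piecewise syndetic colour classes.
-/

set_option autoImplicit false

namespace Pool.Agent.Results.MP_8bf9c2_nt.ThirdOfProducts

open Filter Finset

/-- There is `a` with `|a - A| ≤ C` such that `(a, D)` satisfies the hypotheses and the conclusion of
the question, with at least `x ^ (1 - η)` primes `q ≤ x` such that `a + q D` is prime, for arbitrarily
large `x`, for every `η > 0`. -/
def GoodNear (C : ℕ) (A : ℤ) (D : ℕ) : Prop :=
  ∃ a : ℤ, |a - A| ≤ C ∧ Int.gcd a D = 1 ∧ 2 ∣ a * (D : ℤ) ∧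
    {q : ℕ | q.Prime ∧ ∃ p : ℕ, p.Prime ∧ a + q * D = p}.Infinite ∧
    ∀ η : ℝ, 0 < η → ∃ᶠ x : ℝ in atTop, x ^ (1 - η) ≤
      ({q : ℕ | (q.Prime ∧ ∃ p : ℕ, p.Prime ∧ a + q * D = p) ∧ (q : ℝ) ≤ x}.ncard : ℝ)

theorem prod_split (d : ℕ → ℕ) {k l : ℕ} (h : k ≤ l) :
    ∏ i ∈ range l, d i = (∏ i ∈ range k, d i) * ∏ i ∈ Ico k l, d i := by
  rw [Finset.prod_range_mul_prod_Ico d h]

theorem of_solv {d : ℕ → ℕ} (hd : ∀ l, 1 ≤ d l) {k l : ℕ} (hkl : k ≤ l) {C : ℕ} {B : ℤ}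
    (h : Pool.Agent.V11150.SlopeB.Solv (∏ i ∈ range k, d i) (∏ i ∈ range l, d i) C B) :
    GoodNear C B (∏ i ∈ Ico k l, d i) := by
  obtain ⟨a, b, c, h1, h2, h3, h4, h5, h6, h7, h8, h9, h10⟩ := h
  have hm : 0 < ∏ i ∈ range k, d i := Finset.prod_pos fun i _ => hd i
  rw [prod_split d hkl] at h3
  have h11 : a * ∏ i ∈ Ico k l, d i = b := by
    have : (∏ i ∈ range k, d i) * (a * ∏ i ∈ Ico k l, d i) = (∏ i ∈ range k, d i) * b := by
      linarith [h3]
    exact Nat.eq_of_mul_eq_mul_left hm this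
  have ha1 : a = 1 := by
    have e1 : a ∣ b := ⟨_, h11.symm⟩
    have e2 : Nat.Coprime a b := Nat.isCoprime_iff_coprime.1 h5
    have e3 : a ∣ Nat.gcd a b := Nat.dvd_gcd dvd_rfl e1
    rw [e2] at e3
    exact Nat.dvd_one.1 e3
  subst ha1
  rw [one_mul] at h11
  subst h11
  have hset : {q : ℕ | q.Prime ∧ ∃ p : ℕ, p.Prime ∧ ((1 : ℕ) : ℤ) * p -
      ((∏ i ∈ Ico k l, d i : ℕ) : ℤ) * q = c} =
      {q : ℕ | q.Prime ∧ ∃ p : ℕ, p.Prime ∧ c + q * ((∏ i ∈ Ico k l, d i : ℕ) : ℤ) = p} := by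
    ext q
    refine and_congr_right fun _ => exists_congr fun p => and_congr_right fun _ => ?_
    rw [Nat.cast_one, one_mul, mul_comm]
    constructor
    · intro h; linarith
    · intro h; linarith
  rw [hset] at h10
  refine ⟨c, by simpa using h9, Int.isCoprime_iff_gcd_eq_one.1 h7.symm, ?_, h10.infinite, h10⟩
  by_contra hne
  have hnot : ¬ Even (c * ((∏ i ∈ Ico k l, d i : ℕ) : ℤ)) := fun he => hne he.two_dvd
  rw [Int.even_mul, not_or] at hnot
  apply h8
  refine ⟨odd_one, ?_, Int.not_even_iff_odd.1 hnot.1⟩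
  exact_mod_cast Int.not_even_iff_odd.1 hnot.2

open Classical in
theorem result : ∀ (n : ℕ) (d : ℕ → ℕ), (∀ l, 1 ≤ d l) → ∃ C : ℕ,
    (∀ A : ℤ, ((n : ℤ) + 1) * (n - 2) ≤ 6 * ((univ.filter (fun x : Fin (n + 1) × Fin (n + 1) =>
      x.1 < x.2 ∧ GoodNear C A (∏ l ∈ Ico (x.1 : ℕ) x.2, d l))).card : ℤ)) ∧
    ∃ E : Finset (Fin (n + 1) × Fin (n + 1)), (∀ x ∈ E, x.1 < x.2) ∧
      ((n : ℤ) + 1) * (n - 2) ≤ 6 * (E.card : ℤ) ∧
      ∀ L : ℕ, ∃ A₀ : ℤ, ∀ A : ℤ, A₀ ≤ A → A ≤ A₀ + L →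
        ∀ x ∈ E, GoodNear C A (∏ l ∈ Ico (x.1 : ℕ) x.2, d l) := by
  intro n d hd
  obtain ⟨C, h1, E, h2, h3, h4⟩ := Pool.Agent.V11150.SlopeB.main
    (fun k : Fin (n + 1) => ∏ i ∈ range (k : ℕ), d i)
    (fun k => Nat.one_le_iff_ne_zero.2 (Finset.prod_pos fun i _ => hd i).ne')
  have e0 : ((n + 1 : ℕ) : ℤ) * (((n + 1 : ℕ) : ℤ) - 3) = ((n : ℤ) + 1) * (n - 2) := by
    push_cast; ring
  rw [e0] at h3
  refine ⟨C, fun A => ?_, E, h2, h3, fun L => ?_⟩
  · have h0 := h1 A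
    rw [e0] at h0
    refine h0.trans ?_
    have : (univ.filter (fun x : Fin (n + 1) × Fin (n + 1) => x.1 < x.2 ∧
        Pool.Agent.V11150.SlopeB.Solv (∏ i ∈ range (x.1 : ℕ), d i)
          (∏ i ∈ range (x.2 : ℕ), d i) C A)).card ≤
        (univ.filter (fun x : Fin (n + 1) × Fin (n + 1) => x.1 < x.2 ∧
          GoodNear C A (∏ l ∈ Ico (x.1 : ℕ) x.2, d l))).card := by
      apply card_le_card
      intro x hx
      rw [mem_filter] at hx ⊢
      exact ⟨hx.1, hx.2.1, of_solv hd (Fin.le_def.1 hx.2.1.le) hx.2.2⟩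
    have h5 := (Nat.cast_le (α := ℤ)).2 this
    linarith
  · obtain ⟨B₀, h⟩ := h4 L
    exact ⟨B₀, fun B h5 h6 x hx => of_solv hd (Fin.le_def.1 (h2 x hx).le) (h B h5 h6 x hx)⟩

end Pool.Agent.Results.MP_8bf9c2_nt.ThirdOfProducts
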