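import Pool.Agent.V1137.Pm2

/-!
For given slopes `d_1, ..., d_r` and most vectors `(a_1, ..., a_r)` of positive integers without local
obstruction, the numbers `a_j + q d_j` are simultaneously prime for the expected number, up to a
constant factor, of primes `q` from any given set of primes which meets all short clusters of primes.
-/

set_option autoImplicit false

open Finset Filter Topology

namespace Pool.Agent.Results.MP_8bf9c2_nt.UnavoidablePrimes

/-- `P` meets all short clusters of primes: there are `M` and `ε > 0` such that, for all large `u`,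
every interval `[u, v]` with `v ≤ u + ε log u` which contains at least `M` primes contains a prime
which belongs to `P`. -/
def MeetsClusters (P : Set ℕ) : Prop := ∃ (M : ℕ) (ε : ℝ), 0 < ε ∧ ∃ u₀ : ℕ, ∀ u v : ℕ, u₀ ≤ u →
  (v : ℝ) ≤ u + ε * Real.log u → M ≤ ((Icc u v).filter Nat.Prime).card →
  ∃ p ∈ P, u ≤ p ∧ p ≤ v ∧ p.Prime

/-- For every prime `l` there is an integer `n` such that `l` divides none of the numbers
`n, a_1 + n d_1, ..., a_r + n d_r`. -/
def NoObstruction {r : ℕ} (d a : Fin r → ℕ) : Prop :=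
  ∀ l : ℕ, l.Prime → ∃ n : ℤ, ¬ (l : ℤ) ∣ n ∧ ∀ j, ¬ (l : ℤ) ∣ a j + n * d j

open Classical in
/-- The primes `q ≤ x` in `P` for which all `a_j + q d_j` are prime. -/
noncomputable def primes {r : ℕ} (P : Set ℕ) (d a : Fin r → ℕ) (x : ℕ) : Finset ℕ :=
  (Icc 1 x).filter (fun q => q.Prime ∧ q ∈ P ∧ ∀ j, (a j + q * d j).Prime)

open Classical in
/-- The vectors with `1 ≤ a_j ≤ K x` without obstruction and with fewer than
`c x / (log x) ^ (r + 1)` such primes. -/
noncomputable def exceptions {r : ℕ} (P : Set ℕ) (d : Fin r → ℕ) (c : ℝ) (K x : ℕ) :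
    Finset (Fin r → ℕ) :=
  (Fintype.piFinset (fun _ : Fin r => Icc 1 (K * x))).filter (fun a => NoObstruction d a ∧
    ((primes P d a x).card : ℝ) < c * (x / Real.log x ^ (r + 1)))

open Pool.Agent.V1137.Unav in
/-- **Simultaneous primes `a_j + q d_j` for primes `q` from a set which meets all short clusters of
primes.** Let `P` be a set which, for some `M` and `ε > 0`, contains a prime from every interval
`[u, v]`, `v ≤ u + ε log u`, `u` large, with at least `M` primes. For all `r`, all positive integers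
`d_1, ..., d_r`, all `K` and `κ > 0` there is `c > 0` such that for all large `x` and all vectors
`(a_1, ..., a_r)` of integers `1 ≤ a_j ≤ K x` without local obstruction, with at most `κ x ^ r`
exceptions, there are at least `c x / (log x) ^ (r + 1)` primes `q ≤ x` in `P` for which all
`a_j + q d_j` are prime. -/
theorem result (P : Set ℕ) (hP : MeetsClusters P) (r : ℕ) (d : Fin r → ℕ) (hd : ∀ j, 0 < d j)
    (K : ℕ) (κ : ℝ) (hκ : 0 < κ) : ∃ c : ℝ, 0 < c ∧ ∀ᶠ x : ℕ in atTop,
      ((exceptions P d c K x).card : ℝ) ≤ κ * (x : ℝ) ^ r := by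
  classical
  obtain ⟨M, ε, hε, hP⟩ := hP
  have hdz : ∀ j, ((d j : ℕ) : ℤ) ≠ 0 := fun j => by exact_mod_cast (hd j).ne'
  have hdeg : ∀ j, (Polynomial.C ((d j : ℕ) : ℤ) * Polynomial.X).natDegree = 1 := fun j =>
    Polynomial.natDegree_C_mul_X _ (hdz j)
  obtain ⟨c, hc, x₀, h⟩ := sys_pm (fun _ : Fin r => 1) (fun _ => Or.inl rfl)
    (fun j => Polynomial.C ((d j : ℕ) : ℤ) * Polynomial.X) (fun j => by rw [hdeg j])
    (fun j => by
      rw [Polynomial.leadingCoeff_mul, Polynomial.leadingCoeff_X, mul_one,
        Polynomial.leadingCoeff_C]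
      exact_mod_cast hd j) P (PS_most M ε hε P hP) K κ hκ
  refine ⟨c, hc, ?_⟩
  rw [eventually_atTop]
  refine ⟨x₀, fun x hx => le_trans ?_ ((h x hx).trans (le_of_eq ?_))⟩
  · apply Nat.cast_le.2
    apply card_le_card
    intro a ha
    unfold exceptions at ha
    rw [mem_filter, Fintype.mem_piFinset] at ha
    rw [mem_filter, Fintype.mem_piFinset]
    have hev : ∀ j, ∀ n : ℤ, (a j : ℤ) + 1 * (Polynomial.C ((d j : ℕ) : ℤ) * Polynomial.X).eval n =
        a j + n * d j := by
      intro j n
      rw [Polynomial.eval_mul, Polynomial.eval_C, Polynomial.eval_X]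
      ring
    refine ⟨fun j => ?_, ?_, ?_⟩
    · rw [hdeg, pow_one]
      exact ha.1 j
    · intro l hl
      obtain ⟨n, hn1, hn2⟩ := ha.2.1 l hl
      refine ⟨n, hn1, fun j hd => hn2 j ?_⟩
      rwa [hev j n] at hd
    · refine lt_of_le_of_lt ?_ ha.2.2
      apply Nat.cast_le.2
      apply card_le_card
      intro p hp
      unfold Arg at hp
      unfold primes
      rw [mem_filter] at hp ⊢
      refine ⟨hp.1, hp.2.1, hp.2.2.1, fun i => ?_⟩
      have h1 := hp.2.2.2 i
      rw [hev i p] at h1
      have e1 : ((a i : ℤ) + p * d i).toNat = a i + p * d i := by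
        have e2 : (a i : ℤ) + p * d i = ((a i + p * d i : ℕ) : ℤ) := by push_cast; ring
        rw [e2, Int.toNat_natCast]
      rwa [e1] at h1
  · rw [prod_congr rfl fun j _ => by rw [hdeg j, pow_one]]
    rw [prod_const, card_univ, Fintype.card_fin]

end Pool.Agent.Results.MP_8bf9c2_nt.UnavoidablePrimes
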